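import Mathlib

set_option autoImplicit false

open Filter Set Real
open scoped Topology

namespace Pool.Agent.Results.MP_4423d6_an.Strong

/-- The Winfree vector field. -/
noncomputable def field {N : ℕ} (Ω : Fin N → ℝ) (κ : ℝ) (θ : Fin N → ℝ) (i : Fin N) : ℝ :=
  Ω i - κ / N * ∑ j, (1 + cos (θ j)) * sin (θ i)

/-- The solution from `θ₀` converges. -/
def Conv {N : ℕ} (Ω : Fin N → ℝ) (κ : ℝ) (θ₀ : Fin N → ℝ) : Prop :=
  ∃ θ : ℝ → Fin N → ℝ, θ 0 = θ₀ ∧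
    (∀ i, ∀ t ≥ 0, HasDerivWithinAt (fun s => θ s i) (field Ω κ (θ t) i) (Ici 0) t) ∧
    ∀ i, ∃ l, Tendsto (fun t => θ t i) atTop (𝓝 l)

/-- The critical coupling strength. -/
noncomputable def κc {N : ℕ} (Ω : Fin N → ℝ) : EReal :=
  ⨅ k ∈ {k : ℝ | 0 < k ∧ ∀ κ > k, ∃ θ, ∀ i, field Ω κ θ i = 0}, (k : EReal)

/-- The pathwise critical coupling strength. -/
noncomputable def κpc {N : ℕ} (θ₀ Ω : Fin N → ℝ) : EReal :=
  ⨅ k ∈ {k : ℝ | 0 < k ∧ ∀ κ > k, Conv Ω κ θ₀}, (k : EReal)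

lemma equil (κ : ℝ) (h : 2 / 3 < κ) : ∃ θ, ∀ i, field ![1, 0] κ θ i = 0 := by
  have hc : Continuous fun a : ℝ => 1 - κ / 2 * ((1 + cos a) * sin a + 2 * sin a) := by fun_prop
  obtain ⟨a, -, ha⟩ := intermediate_value_Icc' (by positivity : 0 ≤ π / 2) hc.continuousOn
    (show (0 : ℝ) ∈ _ from ⟨by simp; linarith, by simp⟩)
  refine ⟨![a, 0], fun i => ?_⟩
  fin_cases i
  · simpa [field, one_add_one_eq_two] using ha
  · simp [field]

lemma notconv : ¬ Conv ![1, 0] 1 ![0, π] := by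
  rintro ⟨θ, h0, hd, hl⟩
  have cont : ∀ i T, ContinuousOn (fun s => θ s i) (Icc 0 T) := fun i T t ht =>
    (hd i t ht.1).continuousWithinAt.mono Icc_subset_Ici_self
  have h1 : ∀ t ≥ 0, θ t 1 = π := by
    intro T hT
    have := eq_zero_of_abs_deriv_le_mul_abs_self_of_eq_zero_right (f := fun s => θ s 1 - π)
      (f' := fun t => field ![1, 0] 1 (θ t) 1) (K := 2) ((cont 1 T).sub continuousOn_const)
      (fun t ht => ((hd 1 t ht.1).mono (Ici_subset_Ici.2 ht.1)).sub_const π) (by simp [h0])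
      (fun t _ => ?_) T ⟨hT, le_rfl⟩
    · linarith
    · have a1 : |sin (θ t 1)| ≤ |θ t 1 - π| := by
        simpa using abs_sin_sub_sin_le (θ t 1) π
      have e : field ![1, 0] 1 (θ t) 1 = -((2 + cos (θ t 0) + cos (θ t 1)) / 2 * sin (θ t 1)) := by
        simp [field]
        ring
      rw [e, norm_neg, Real.norm_eq_abs, Real.norm_eq_abs, abs_mul]
      refine mul_le_mul (abs_le.2 ⟨?_, ?_⟩) a1 (abs_nonneg _) zero_le_two <;>
        linarith [neg_one_le_cos (θ t 0), neg_one_le_cos (θ t 1), cos_le_one (θ t 0),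
          cos_le_one (θ t 1)]
  have h2 : ∀ T ≥ 0, T / 4 ≤ θ T 0 := by
    intro T hT
    refine image_le_of_deriv_right_le_deriv_boundary (f := fun s => s / 4) (f' := fun _ => 1 / 4)
      (B := fun s => θ s 0) (B' := fun t => field ![1, 0] 1 (θ t) 0) (by fun_prop)
      (fun t _ => ((hasDerivAt_id t).div_const 4).hasDerivWithinAt) (by simp [h0]) (cont 0 T)
      (fun t ht => (hd 0 t ht.1).mono (Ici_subset_Ici.2 ht.1)) (fun t ht => ?_) ⟨hT, le_rfl⟩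
    have e : field ![1, 0] 1 (θ t) 0 = 1 - (sin (θ t 0) + cos (θ t 0) * sin (θ t 0)) / 2 := by
      simp [field, h1 t ht.1]
      ring
    rw [e]
    nlinarith [sin_le_one (θ t 0), sin_sq_add_cos_sq (θ t 0), sq_nonneg (sin (θ t 0) - cos (θ t 0))]
  obtain ⟨l, hl⟩ := hl 0
  refine not_tendsto_atTop_of_tendsto_nhds hl (tendsto_atTop_mono' _ ?_
    (tendsto_id.atTop_div_const (by norm_num : (0 : ℝ) < 4)))
  filter_upwards [eventually_ge_atTop 0] with T hT using h2 T hT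

theorem result : ∃ (N : ℕ) (Ω θ₀ : Fin N → ℝ), 1 ≤ N ∧ κc Ω < κpc θ₀ Ω := by
  refine ⟨2, ![1, 0], ![0, π], one_le_two, lt_of_le_of_lt (b := ((2 / 3 : ℝ) : EReal))
    (iInf₂_le (2 / 3 : ℝ) ⟨by norm_num, equil⟩) (lt_of_lt_of_le (b := ((1 : ℝ) : EReal))
    (EReal.coe_lt_coe_iff.2 (by norm_num)) (le_iInf₂ fun k hk => EReal.coe_le_coe_iff.2 ?_))⟩
  by_contra h
  exact notconv (hk.2 1 (not_le.1 h))

end Pool.Agent.Results.MP_4423d6_an.Strong
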